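import Pool.Agent.Helper79K9.King.Defs

/-!
# [CLO] Compact components have compact clopen neighbourhoods
-/

set_option autoImplicit false

namespace Pool.Agent.Helper79K9.King

open Topology Set Filter

universe u

/-- [CLO] -/
theorem clo : S_CLO.{u} := by
  classical
  intro X _ _ _ x U hC hU hCU
  obtain ⟨K, hK, hCK, hKU⟩ := exists_compact_between hC hU hCU
  have hKc : CompactSpace K := isCompact_iff_compactSpace.1 hK
  have hx : x ∈ K := interior_subset (hCK mem_connectedComponent)
  have h1 : connectedComponent (⟨x, hx⟩ : K) ⊆ Subtype.val ⁻¹' (interior K) := by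
    intro z hz
    apply hCK
    have h2 : IsPreconnected ((Subtype.val : K → X) '' connectedComponent (⟨x, hx⟩ : K)) :=
      isPreconnected_connectedComponent.image _ continuous_subtype_val.continuousOn
    exact h2.subset_connectedComponent ⟨_, mem_connectedComponent, rfl⟩ ⟨z, hz, rfl⟩
  obtain ⟨Z, hZ⟩ : ∃ Z : {s : Set K // IsClopen s ∧ (⟨x, hx⟩ : K) ∈ s},
      (Z : Set K) ⊆ Subtype.val ⁻¹' (interior K) := by
    have hne : Nonempty {s : Set K // IsClopen s ∧ (⟨x, hx⟩ : K) ∈ s} :=
      ⟨⟨univ, isClopen_univ, mem_univ _⟩⟩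
    refine exists_subset_nhds_of_isCompact' (V := fun Z : {s : Set K // IsClopen s ∧
      (⟨x, hx⟩ : K) ∈ s} => (Z : Set K)) ?_ (fun Z => Z.2.1.isClosed.isCompact)
      (fun Z => Z.2.1.isClosed) ?_
    · intro Z Z'
      exact ⟨⟨Z.1 ∩ Z'.1, Z.2.1.inter Z'.2.1, Z.2.2, Z'.2.2⟩, inter_subset_left,
        inter_subset_right⟩
    · intro z hz
      rw [← connectedComponent_eq_iInter_isClopen] at hz
      exact (isOpen_interior.preimage continuous_subtype_val).mem_nhds (h1 hz)
  have hVc : IsCompact ((Subtype.val : K → X) '' Z.1) :=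
    Z.2.1.isClosed.isCompact.image continuous_subtype_val
  have hVo : IsOpen ((Subtype.val : K → X) '' Z.1) := by
    obtain ⟨O, hO, hOZ⟩ := isOpen_induced_iff.1 Z.2.1.isOpen
    have h2 : (Subtype.val : K → X) '' Z.1 = O ∩ interior K := by
      ext z
      constructor
      · rintro ⟨w, hw, rfl⟩
        refine ⟨?_, hZ hw⟩
        rw [← hOZ] at hw
        exact hw
      · rintro ⟨hz1, hz2⟩
        refine ⟨⟨z, interior_subset hz2⟩, ?_, rfl⟩
        rw [← hOZ]
        exact hz1
    rw [h2]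
    exact hO.inter isOpen_interior
  have hVcl : IsClopen ((Subtype.val : K → X) '' Z.1) := ⟨hVc.isClosed, hVo⟩
  refine ⟨_, hVcl, hVc, hVcl.connectedComponent_subset ⟨⟨x, hx⟩, Z.2.2, rfl⟩, ?_⟩
  rintro _ ⟨w, _, rfl⟩
  exact hKU w.2

end Pool.Agent.Helper79K9.King
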