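import Pool.Agent.Helper79K9.King.Defs

/-!
Leaf COMP: if no kingless continuous weak selection exists, all components are compact.
-/

set_option autoImplicit false

namespace Pool.Agent.Helper79K9.King

open Topology Set Filter

universe u

namespace CompL

variable {X : Type u} [TopologicalSpace X]

theorem glue' {R : X → X → Prop} (h : CT R) {W : Set X} (hW : IsClopen W) (hne : W.Nonempty)
    (hk : ∀ z ∈ W, ∃ x ∈ W, ∀ y ∈ W, R z y → ¬ R y x) : KL X := by
  refine ⟨fun a b => (a ∈ W ∧ b ∉ W) ∨ ((a ∈ W ↔ b ∈ W) ∧ R a b), ⟨?_, ?_, ?_⟩, ?_⟩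
  · intro a
    exact Or.inr ⟨Iff.rfl, h.refl a⟩
  · intro a b hab
    have := h.tot a b hab
    by_cases ha : a ∈ W <;> by_cases hb : b ∈ W <;> simp only [ha, hb] <;> tauto
  · intro a b hab hr
    have e1 : ∀ᶠ p in 𝓝 (a, b), (p.1 ∈ W ↔ a ∈ W) := by
      have hc : Tendsto (fun p : X × X => p.1) (𝓝 (a, b)) (𝓝 a) := continuous_fst.tendsto (a, b)
      apply hc.eventually (p := fun x => (x ∈ W ↔ a ∈ W))
      by_cases ha : a ∈ W
      · filter_upwards [hW.isOpen.mem_nhds ha] with x hx
        tauto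
      · filter_upwards [hW.compl.isOpen.mem_nhds ha] with x hx
        have : x ∉ W := hx
        tauto
    have e2 : ∀ᶠ p in 𝓝 (a, b), (p.2 ∈ W ↔ b ∈ W) := by
      have hc : Tendsto (fun p : X × X => p.2) (𝓝 (a, b)) (𝓝 b) := continuous_snd.tendsto (a, b)
      apply hc.eventually (p := fun x => (x ∈ W ↔ b ∈ W))
      by_cases hb : b ∈ W
      · filter_upwards [hW.isOpen.mem_nhds hb] with x hx
        tauto
      · filter_upwards [hW.compl.isOpen.mem_nhds hb] with x hx
        have : x ∉ W := hx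
        tauto
    rcases hr with ⟨ha, hb⟩ | ⟨hw, hr⟩
    · filter_upwards [e1, e2] with p h1 h2
      left
      tauto
    · filter_upwards [e1, e2, h.cont a b hab hr] with p h1 h2 h3
      right
      refine ⟨?_, h3⟩
      tauto
  · intro z
    by_cases hz : z ∈ W
    · obtain ⟨x, hx, hy⟩ := hk z hz
      refine ⟨x, fun y h1 h2 => ?_⟩
      by_cases hyW : y ∈ W
      · rcases h1 with ⟨_, h1⟩ | ⟨_, h1⟩
        · exact h1 hyW
        · rcases h2 with ⟨_, h2⟩ | ⟨_, h2⟩
          · exact h2 hx
          · exact hy y hyW h1 h2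
      · rcases h2 with ⟨h2, _⟩ | ⟨h2, _⟩
        · exact hyW h2
        · exact hyW (h2.2 hx)
    · obtain ⟨x, hx⟩ := hne
      refine ⟨x, fun y h1 h2 => ?_⟩
      rcases h1 with ⟨h1, _⟩ | ⟨h1, _⟩
      · exact hz h1
      · have hyW : y ∉ W := fun h => hz (h1.2 h)
        rcases h2 with ⟨h2, _⟩ | ⟨h2, _⟩
        · exact hyW h2
        · exact hyW (h2.2 hx)

variable [T2Space X] {R : X → X → Prop}

open Classical in
theorem retr_cont (h : CT R) (b : X) : Continuous (fun x => if R b x then x else b) := by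
  rw [continuous_iff_continuousAt]
  intro x
  by_cases hx : x = b
  · subst hx
    have h0 : (fun y => if R x y then y else x) x = x := by simp
    intro U hU
    rw [h0] at hU
    have : U ∈ 𝓝 x := hU
    rw [mem_map]
    filter_upwards [this] with y hy
    rw [mem_preimage]
    by_cases hr : R x y
    · simpa [hr] using hy
    · simpa [hr] using mem_of_mem_nhds this
  · by_cases hr : R b x
    · have h1 : (fun x => if R b x then x else b) =ᶠ[𝓝 x] id := by
        filter_upwards [(h.open_right b).mem_nhds ⟨hx, hr⟩] with y hy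
        simp [hy.2]
      exact (continuousAt_id.congr h1.symm)
    · have hr2 : R x b := (h.tot x b hx).2 hr
      have h1 : (fun x => if R b x then x else b) =ᶠ[𝓝 x] fun _ => b := by
        filter_upwards [(h.open_left b).mem_nhds ⟨hx, hr2⟩] with y hy
        have : ¬ R b y := (h.tot y b hy.1).1 hy.2
        simp [this]
      exact (continuousAt_const.congr h1.symm)

theorem up_conn (h : CT R) {D : Set X} (hD : IsPreconnected D) {b : X} (hb : b ∈ D) :
    IsPreconnected {x | x ∈ D ∧ R b x} := by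
  classical
  have h1 : {x | x ∈ D ∧ R b x} = (fun x => if R b x then x else b) '' D := by
    ext x
    constructor
    · rintro ⟨hx, hr⟩
      exact ⟨x, hx, by simp [hr]⟩
    · rintro ⟨y, hy, rfl⟩
      by_cases hr : R b y
      · simp [hr, hy]
      · simp [hr, hb, h.refl b]
  rw [h1]
  exact hD.image _ (retr_cont h b).continuousOn

theorem down_conn (h : CT R) {D : Set X} (hD : IsPreconnected D) {b : X} (hb : b ∈ D) :
    IsPreconnected {x | x ∈ D ∧ R x b} := up_conn h.rev hD hb

/-- a preconnected set which misses `a` is on one side of `a` -/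
theorem side (h : CT R) {D : Set X} (hD : IsPreconnected D) {a b : X} (ha : a ∉ D) (hb : b ∈ D)
    (hab : R a b) : ∀ x ∈ D, R a x := by
  intro x hx
  by_contra hax
  have hxa : x ≠ a := fun e => ha (e ▸ hx)
  have hba : b ≠ a := fun e => ha (e ▸ hb)
  have hxr : R x a := (h.tot x a hxa).2 hax
  obtain ⟨y, hyD, hy1, hy2⟩ := hD _ _ (h.open_right a) (h.open_left a)
    (by
      intro y hy
      have hya : y ≠ a := fun e => ha (e ▸ hy)
      rcases h.or a y with h1 | h1
      · exact Or.inl ⟨hya, h1⟩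
      · exact Or.inr ⟨hya, h1⟩) ⟨b, hb, hba, hab⟩ ⟨x, hx, hxa, hxr⟩
  exact hy1.1 (h.asym hy2.2 hy1.2)

/-- transitivity on a preconnected set -/
theorem trans (h : CT R) {C : Set X} (hC : IsPreconnected C) {a b d : X} (hb : b ∈ C)
    (hd : d ∈ C) (hab : R a b) (hbd : R b d) (hne : a ≠ b) : R a d := by
  refine side h (up_conn h hC hb) (a := a) (b := b) ?_ ⟨hb, h.refl b⟩ hab d ⟨hd, hbd⟩
  rintro ⟨_, h1⟩
  exact hne (h.asym hab h1)

theorem trans' (h : CT R) {C : Set X} (hC : IsPreconnected C) {a b d : X} (hb : b ∈ C)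
    (hd : d ∈ C) (hab : R a b) (hbd : R b d) : R a d := by
  by_cases hne : a = b
  · subst hne; exact hbd
  · exact trans h hC hb hd hab hbd hne

theorem closed_right (h : CT R) (a : X) : IsClosed {x | R a x} := by
  have h1 : {x | R a x} = {x | x ≠ a ∧ R x a}ᶜ := by
    ext x
    simp only [mem_ofPred_eq, mem_compl_iff, not_and]
    constructor
    · intro h1 h2 h3
      exact h2 (h.asym h3 h1)
    · intro h1
      by_cases hx : x = a
      · subst hx; exact h.refl x
      · exact (h.tot a x (Ne.symm hx)).2 (h1 hx)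
  rw [h1]
  exact (h.open_left a).isClosed_compl

theorem closed_left (h : CT R) (a : X) : IsClosed {x | R x a} := closed_right h.rev a

/-- near a point outside a compact set the relation with all points of the set is constant -/
theorem loc_const (h : CT R) {B : Set X} (hB : IsCompact B) {x : X} (hx : x ∉ B) :
    ∀ᶠ x' in 𝓝 x, ∀ k ∈ B, (R x' k ↔ R x k) := by
  have key : ∀ k ∈ B, ∀ᶠ p in 𝓝 (x, k), (R p.1 p.2 ↔ R x k) ∧ (R x p.2 ↔ R x k) := by
    intro k hk
    have hxk : x ≠ k := fun e => hx (e ▸ hk)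
    have hne : ∀ᶠ p in 𝓝 (x, k), p.1 ≠ p.2 := by
      have : IsOpen {p : X × X | p.1 ≠ p.2} := isOpen_ne_fun continuous_fst continuous_snd
      exact this.mem_nhds hxk
    have hne2 : ∀ᶠ p in 𝓝 (x, k), x ≠ p.2 := by
      have : IsOpen {p : X × X | x ≠ p.2} := isOpen_ne_fun continuous_const continuous_snd
      exact this.mem_nhds hxk
    have hT : Tendsto (fun p : X × X => (x, p.2)) (𝓝 (x, k)) (𝓝 (x, k)) := by
      have : Continuous (fun p : X × X => (x, p.2)) := by fun_prop
      simpa using this.tendsto (x, k)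
    have hT2 : Tendsto (fun p : X × X => (p.2, x)) (𝓝 (x, k)) (𝓝 (k, x)) := by
      have : Continuous (fun p : X × X => (p.2, x)) := by fun_prop
      simpa using this.tendsto (x, k)
    have hT3 : Tendsto (fun p : X × X => (p.2, p.1)) (𝓝 (x, k)) (𝓝 (k, x)) := by
      have : Continuous (fun p : X × X => (p.2, p.1)) := by fun_prop
      simpa using this.tendsto (x, k)
    by_cases hr : R x k
    · filter_upwards [h.cont x k hxk hr, hT.eventually (h.cont x k hxk hr)] with p h1 h2
      exact ⟨⟨fun _ => hr, fun _ => h1⟩, ⟨fun _ => hr, fun _ => h2⟩⟩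
    · have hr2 : R k x := (h.tot k x (Ne.symm hxk)).2 hr
      filter_upwards [hT3.eventually (h.cont k x (Ne.symm hxk) hr2),
        hT2.eventually (h.cont k x (Ne.symm hxk) hr2), hne, hne2] with p h1 h2 h3 h4
      refine ⟨⟨fun h5 => absurd (h.asym h5 h1) h3, fun h5 => absurd h5 hr⟩,
        ⟨fun h5 => absurd (h.asym h5 h2) h4, fun h5 => absurd h5 hr⟩⟩
  refine hB.eventually_forall_of_forall_eventually ?_
  intro k hk
  filter_upwards [key k hk] with p hp
  rw [hp.1, hp.2]

/-- intervals -/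
def Ivl (R : X → X → Prop) (C : Set X) (x x' : X) : Set X := {y | y ∈ C ∧ R x y ∧ R y x'}

theorem ivl_conn (h : CT R) {C : Set X} (hC : IsPreconnected C) {x x' : X} (hx : x ∈ C)
    (hx' : x' ∈ C) (hr : R x x') : IsPreconnected (Ivl R C x x') := by
  have := down_conn h (up_conn h hC hx) (b := x') ⟨hx', hr⟩
  have e : Ivl R C x x' = {y | y ∈ {y | y ∈ C ∧ R x y} ∧ R y x'} := by
    ext y
    simp only [Ivl, mem_ofPred_eq]
    tauto
  rw [e]
  exact this

theorem ivl_closed (h : CT R) {C : Set X} (hC : IsClosed C) (x x' : X) :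
    IsClosed (Ivl R C x x') := by
  have e : Ivl R C x x' = C ∩ ({y | R x y} ∩ {y | R y x'}) := by
    ext y
    simp only [Ivl, mem_ofPred_eq, mem_inter_iff]
  rw [e]
  exact hC.inter ((closed_right h x).inter (closed_left h x'))

/-- a short interval is compact -/
theorem ivl_compact (h : CT R) {C : Set X} (hC : IsPreconnected C) (hCc : IsClosed C)
    {K : Set X} (hK : IsCompact K) {x x' z : X} (hx : x ∈ C) (hx' : x' ∈ C) (hr : R x x')
    (hz : z = x ∨ z = x') (hzK : z ∈ interior K)
    (hmiss : ∀ k ∈ Ivl R C x x', k ∉ K \ interior K) : IsCompact (Ivl R C x x') := by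
  have hsub : Ivl R C x x' ⊆ K := by
    intro y hy
    by_contra hyK
    obtain ⟨w, hw, hw1, hw2⟩ := ivl_conn h hC hx hx' hr (interior K) Kᶜ isOpen_interior
      hK.isClosed.isOpen_compl
      (by
        intro w hw
        by_cases h1 : w ∈ K
        · left
          by_contra h2
          exact hmiss w hw ⟨h1, h2⟩
        · exact Or.inr h1)
      ⟨z, by
        rcases hz with rfl | rfl
        · exact ⟨hx, h.refl _, hr⟩
        · exact ⟨hx', hr, h.refl _⟩, hzK⟩ ⟨y, hy, hyK⟩
    exact hw2 (interior_subset hw1)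
  exact hK.of_isClosed_subset (ivl_closed h hCc x x') hsub

/-- (d) -/
theorem compact_of_ends [LocallyCompactSpace X] (h : CT R) {C : Set X} (hC : IsPreconnected C)
    (hCc : IsClosed C) {M m : X} (hM : M ∈ C) (hm : m ∈ C) (hM' : ∀ x ∈ C, R M x)
    (hm' : ∀ x ∈ C, R x m) : IsCompact C := by
  -- transfer of compactness
  have tr : ∀ x ∈ C, ∀ x' ∈ C, R x x' → IsCompact (Ivl R C x x') →
      (IsCompact {y | y ∈ C ∧ R x y} ↔ IsCompact {y | y ∈ C ∧ R x' y}) := by
    intro x hx x' hx' hr hI
    constructor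
    · intro hc
      refine hc.of_isClosed_subset (hCc.inter (closed_right h x')) ?_
      rintro y ⟨hy, hy2⟩
      exact ⟨hy, trans' h hC hx' hy hr hy2⟩
    · intro hc
      have e : {y | y ∈ C ∧ R x y} = {y | y ∈ C ∧ R x' y} ∪ Ivl R C x x' := by
        ext y
        constructor
        · rintro ⟨hy, hy2⟩
          rcases h.or x' y with h1 | h1
          · exact Or.inl ⟨hy, h1⟩
          · exact Or.inr ⟨hy, hy2, h1⟩
        · rintro (⟨hy, hy2⟩ | ⟨hy, hy2, _⟩)
          · exact ⟨hy, trans' h hC hx' hy hr hy2⟩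
          · exact ⟨hy, hy2⟩
      rw [e]
      exact hc.union hI
  -- local constancy
  have loc : ∀ x ∈ C, ∀ᶠ x' in 𝓝 x, x' ∈ C →
      (IsCompact {y | y ∈ C ∧ R x y} ↔ IsCompact {y | y ∈ C ∧ R x' y}) := by
    intro x hx
    obtain ⟨K, hK, hxK⟩ := exists_compact_mem_nhds x
    have hxi : x ∈ interior K := mem_interior_iff_mem_nhds.2 hxK
    have hB : IsCompact (K \ interior K) := hK.diff isOpen_interior
    have hxB : x ∉ K \ interior K := fun h1 => h1.2 hxi
    filter_upwards [loc_const h hB hxB, isOpen_interior.mem_nhds hxi] with x' h1 h2 hx'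
    rcases h.or x x' with hr | hr
    · apply tr x hx x' hx' hr
      apply ivl_compact h hC hCc hK hx hx' hr (Or.inl rfl) hxi
      rintro k ⟨hkC, hk1, hk2⟩ hkB
      have : R x' k := (h1 k hkB).2 hk1
      have : x' = k := h.asym this hk2
      subst this
      exact hkB.2 h2
    · refine (tr x' hx' x hx hr ?_).symm
      apply ivl_compact h hC hCc hK hx' hx hr (Or.inl rfl) h2
      rintro k ⟨hkC, hk1, hk2⟩ hkB
      have : R x k := (h1 k hkB).1 hk1
      have : x = k := h.asym this hk2
      subst this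
      exact hkB.2 hxi
  -- the two sets
  have hopen : ∀ (Q : Prop), ∃ U : Set X, IsOpen U ∧ ∀ x ∈ C, (x ∈ U ↔
      (IsCompact {y | y ∈ C ∧ R x y} ↔ Q)) := by
    intro Q
    refine ⟨interior {x | x ∈ C → (IsCompact {y | y ∈ C ∧ R x y} ↔ Q)}, isOpen_interior, ?_⟩
    intro x hx
    constructor
    · intro h1
      exact interior_subset h1 hx
    · intro h1
      rw [mem_interior_iff_mem_nhds]
      filter_upwards [loc x hx] with x' h2 h3
      rw [← h2 h3]
      exact h1
  obtain ⟨U, hU, hU'⟩ := hopen True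
  obtain ⟨V, hV, hV'⟩ := hopen False
  have hmU : m ∈ U := by
    rw [hU' m hm]
    have : {y | y ∈ C ∧ R m y} = {m} := by
      ext y
      constructor
      · rintro ⟨hy, hy2⟩
        exact h.asym (hm' y hy) hy2
      · intro hy
        have : y = m := hy
        subst this
        exact ⟨hm, h.refl _⟩
    rw [this]
    exact ⟨fun _ => trivial, fun _ => isCompact_singleton⟩
  have hMc : IsCompact {y | y ∈ C ∧ R M y} := by
    by_contra hcon
    obtain ⟨w, hw, hw1, hw2⟩ := hC U V hU hV
      (by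
        intro x hx
        by_cases h1 : IsCompact {y | y ∈ C ∧ R x y}
        · exact Or.inl ((hU' x hx).2 ⟨fun _ => trivial, fun _ => h1⟩)
        · exact Or.inr ((hV' x hx).2 ⟨fun h2 => h1 h2, fun h2 => h2.elim⟩))
      ⟨m, hm, hmU⟩ ⟨M, hM, (hV' M hM).2 ⟨fun h2 => hcon h2, fun h2 => h2.elim⟩⟩
    have h1 := (hU' w hw).1 hw1
    have h2 := (hV' w hw).1 hw2
    exact h2.1 (h1.2 trivial)
  have : {y | y ∈ C ∧ R M y} = C := by
    ext y
    exact ⟨fun hy => hy.1, fun hy => ⟨hy, hM' y hy⟩⟩
  rwa [this] at hMc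

/-- (e), (f): a component without a top gives a kingless selection -/
theorem kl_of_no_top (h : CT R) (c : X)
    (hno : ∀ z ∈ connectedComponent c, ∃ x ∈ connectedComponent c, x ≠ z ∧ R x z) : KL X := by
  have hC : IsPreconnected (connectedComponent c) := isPreconnected_connectedComponent
  have hCc : IsClosed (connectedComponent c) := isClosed_connectedComponent
  have hc : c ∈ connectedComponent c := mem_connectedComponent
  set C := connectedComponent c with hCdef
  have up : ∀ y, y ∉ C → R y c → ∀ x ∈ C, R y x := fun y hy hr => side h hC hy hc hr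
  have dn : ∀ y, y ∉ C → ¬ R y c → ∀ x ∈ C, R x y := fun y hy hr => by
    have hne : c ≠ y := fun e => hy (e ▸ hc)
    exact side h.rev hC hy hc ((h.tot c y hne).2 hr)
  have hPopen : IsOpen {y | y ∉ C ∧ R y c} := by
    rw [isOpen_iff_mem_nhds]
    rintro y ⟨hy, hr⟩
    have hne : y ≠ c := fun e => hy (e ▸ hc)
    filter_upwards [hCc.isOpen_compl.mem_nhds hy, (h.open_left c).mem_nhds ⟨hne, hr⟩] with w h1 h2
    exact ⟨h1, h2.2⟩
  have hPclosed : IsClosed {y | y ∉ C ∧ R y c} := by
    rw [← isOpen_compl_iff, isOpen_iff_mem_nhds]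
    intro p hp
    by_cases hpC : p ∈ C
    · obtain ⟨x, hx, hxp, hr⟩ := hno p hpC
      filter_upwards [(h.open_right x).mem_nhds ⟨Ne.symm hxp, hr⟩] with y hy
      rintro ⟨hyC, hyr⟩
      have := up y hyC hyr x hx
      exact hy.1 (h.asym this hy.2)
    · have hr : ¬ R p c := fun h1 => hp ⟨hpC, h1⟩
      have hne : p ≠ c := fun e => hpC (e ▸ hc)
      have hr2 : R c p := (h.tot c p (Ne.symm hne)).2 hr
      filter_upwards [(h.open_right c).mem_nhds ⟨hne, hr2⟩] with y hy
      rintro ⟨hyC, hyr⟩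
      exact hy.1 (h.asym hyr hy.2)
  have hP : IsClopen {y | y ∉ C ∧ R y c} := ⟨hPclosed, hPopen⟩
  refine glue' h hP.compl ⟨c, fun h1 => h1.1 hc⟩ ?_
  intro z hz
  by_cases hzC : z ∈ C
  · obtain ⟨x, hx, hxz, hr⟩ := hno z hzC
    refine ⟨x, fun h1 => h1.1 hx, ?_⟩
    intro y hy h1 h2
    by_cases hyC : y ∈ C
    · have := trans' h hC hyC hx h1 h2
      exact hxz (h.asym hr this)
    · have hr3 : ¬ R y c := fun h3 => hy ⟨hyC, h3⟩
      have := dn y hyC hr3 x hx
      exact hyC (h.asym h2 this ▸ hx)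
  · have hr3 : ¬ R z c := fun h3 => hz ⟨hzC, h3⟩
    refine ⟨c, fun h1 => h1.1 hc, ?_⟩
    intro y hy h1 h2
    by_cases hyC : y ∈ C
    · have := dn z hzC hr3 y hyC
      exact hzC (h.asym h1 this ▸ hyC)
    · exact hy ⟨hyC, h2⟩

end CompL

/-- Leaf COMP. -/
theorem comp : S_COMP.{u} := by
  intro X _ _ _ R h hKL c
  by_contra hcon
  have hC : IsPreconnected (connectedComponent c) := isPreconnected_connectedComponent
  have hCc : IsClosed (connectedComponent c) := isClosed_connectedComponent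
  have h1 : ¬ ∀ z ∈ connectedComponent c, ∃ x ∈ connectedComponent c, x ≠ z ∧ R x z :=
    fun h1 => hKL (CompL.kl_of_no_top h c h1)
  have h2 : ¬ ∀ z ∈ connectedComponent c, ∃ x ∈ connectedComponent c, x ≠ z ∧ R z x :=
    fun h1 => hKL (CompL.kl_of_no_top h.rev c h1)
  push Not at h1 h2
  obtain ⟨M, hM, hM'⟩ := h1
  obtain ⟨m, hm, hm'⟩ := h2
  refine hcon (CompL.compact_of_ends h hC hCc hM hm ?_ ?_)
  · intro x hx
    by_cases hx' : x = M
    · subst hx'; exact h.refl x
    · exact (h.tot M x (Ne.symm hx')).2 (hM' x hx hx')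
  · intro x hx
    by_cases hx' : x = m
    · subst hx'; exact h.refl x
    · exact (h.tot x m hx').2 (hm' x hx hx')

end Pool.Agent.Helper79K9.King
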