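import Mathlib

/-!
Continuous weak selections as relations, kingless relations, and the statements of the leaves.
-/

set_option autoImplicit false

namespace Pool.Agent.Helper79K9.King

open Topology Set Filter

universe u

/-- A continuous weak selection as a relation: `R a b` means that `b` is selected
from `{a, b}`. -/
structure CT {X : Type u} [TopologicalSpace X] (R : X → X → Prop) : Prop where
  refl : ∀ a, R a a
  tot : ∀ a b, a ≠ b → (R a b ↔ ¬ R b a)
  cont : ∀ a b, a ≠ b → R a b → ∀ᶠ p in 𝓝 (a, b), R p.1 p.2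

/-- no point of `X` is a king -/
def Kingless {X : Type u} (R : X → X → Prop) : Prop := ∀ z, ∃ x, ∀ y, R z y → ¬ R y x

/-- `X` has a continuous weak selection without kings. -/
def KL (X : Type u) [TopologicalSpace X] : Prop := ∃ R : X → X → Prop, CT R ∧ Kingless R

variable {X : Type u} [TopologicalSpace X]

theorem CT.rev {R : X → X → Prop} (h : CT R) : CT (fun a b => R b a) where
  refl := h.refl
  tot := fun a b hab => h.tot b a (Ne.symm hab)
  cont := fun a b hab hr => by
    have := h.cont b a (Ne.symm hab) hr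
    have hs : Tendsto (Prod.swap : X × X → X × X) (𝓝 (a, b)) (𝓝 (b, a)) := by
      have := (continuous_swap (X := X) (Y := X)).tendsto (a, b)
      simpa using this
    exact hs.eventually this

theorem CT.asym {R : X → X → Prop} (h : CT R) {a b : X} (h1 : R a b) (h2 : R b a) : a = b := by
  by_contra hab
  exact ((h.tot a b hab).1 h1) h2

theorem CT.or {R : X → X → Prop} (h : CT R) (a b : X) : R a b ∨ R b a := by
  by_cases hab : a = b
  · subst hab; exact Or.inl (h.refl a)
  · by_cases h1 : R b a
    · exact Or.inr h1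
    · exact Or.inl ((h.tot a b hab).2 h1)

theorem CT.open_right {R : X → X → Prop} (h : CT R) (a : X) [T1Space X] :
    IsOpen {x | x ≠ a ∧ R a x} := by
  rw [isOpen_iff_mem_nhds]
  rintro x ⟨hx, hr⟩
  have h1 := h.cont a x (Ne.symm hx) hr
  have h2 : Tendsto (fun x' : X => (a, x')) (𝓝 x) (𝓝 (a, x)) :=
    (by fun_prop : Continuous fun x' : X => (a, x')).tendsto x
  filter_upwards [h2.eventually h1, isOpen_ne.mem_nhds hx] with x' h3 h4
  exact ⟨h4, h3⟩

theorem CT.open_left {R : X → X → Prop} (h : CT R) (a : X) [T1Space X] :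
    IsOpen {x | x ≠ a ∧ R x a} := h.rev.open_right a

/-- leaf COMP: if no kingless selection exists, all components are compact -/
def S_COMP : Prop := ∀ (X : Type u) [TopologicalSpace X] [T2Space X] [LocallyCompactSpace X]
  (R : X → X → Prop), CT R → ¬ KL X → ∀ x : X, IsCompact (connectedComponent x)

/-- leaf CLO: compact components have compact clopen neighbourhoods -/
def S_CLO : Prop := ∀ (X : Type u) [TopologicalSpace X] [T2Space X] [LocallyCompactSpace X]
  (x : X) (U : Set X), IsCompact (connectedComponent x) → IsOpen U → connectedComponent x ⊆ U →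
    ∃ V : Set X, IsClopen V ∧ IsCompact V ∧ connectedComponent x ⊆ V ∧ V ⊆ U

/-- leaf REC (uses CLO): rectangles with clopen compact sides -/
def S_REC : Prop := ∀ (X : Type u) [TopologicalSpace X] [T2Space X] [LocallyCompactSpace X]
  (R : X → X → Prop), CT R → (∀ x : X, IsCompact (connectedComponent x)) →
  ∀ (P Q : Set X), IsClopen P → IsClopen Q → Disjoint P Q → ∀ x ∈ P, ∀ y ∈ Q,
    ∃ V W : Set X, IsClopen V ∧ IsCompact V ∧ IsClopen W ∧ IsCompact W ∧ x ∈ V ∧ y ∈ W ∧
      V ⊆ P ∧ W ⊆ Q ∧ ∀ a ∈ V, ∀ b ∈ W, (R a b ↔ R x y)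

end Pool.Agent.Helper79K9.King
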