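import Pool.Agent.Helper79K9.King.Glue

/-!
The main part: spaces in which compact clopen sets cover and every locally constant map to the
naturals is bounded.
-/

set_option autoImplicit false

namespace Pool.Agent.Helper79K9.King

open Topology Set Filter

universe u

variable {X : Type u} [TopologicalSpace X]

theorem CT.ev [T2Space X] {R : X → X → Prop} (h : CT R) {a b : X} (hab : a ≠ b) :
    ∀ᶠ p in 𝓝 (a, b), (R p.1 p.2 ↔ R a b) := by
  rcases h.or a b with h1 | h1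
  · filter_upwards [h.cont a b hab h1] with p hp
    exact ⟨fun _ => h1, fun _ => hp⟩
  · have h2 : ¬ R a b := fun h3 => hab (h.asym h3 h1)
    have h3 := h.rev.cont a b hab h1
    have h4 : ∀ᶠ p : X × X in 𝓝 (a, b), p.1 ≠ p.2 := by
      have := (isClosed_diagonal (X := X)).isOpen_compl.mem_nhds (x := (a, b)) (by simpa using hab)
      filter_upwards [this] with p hp
      simpa using hp
    filter_upwards [h3, h4] with p h5 h6
    exact ⟨fun h7 => absurd (h.asym h7 h5) h6, fun h7 => absurd h7 h2⟩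

/-- The situation of the main part. -/
structure Env (R : X → X → Prop) : Prop where
  ct : CT R
  cpt : ∀ x : X, ∃ V, IsClopen V ∧ IsCompact V ∧ x ∈ V
  rect : ∀ (P Q : Set X), IsClopen P → IsClopen Q → Disjoint P Q → ∀ x ∈ P, ∀ y ∈ Q,
    ∃ V W : Set X, IsClopen V ∧ IsCompact V ∧ IsClopen W ∧ IsCompact W ∧ x ∈ V ∧ y ∈ W ∧
      V ⊆ P ∧ W ⊆ Q ∧ ∀ a ∈ V, ∀ b ∈ W, (R a b ↔ R x y)
  bdd : ∀ ν : X → ℕ, IsLocallyConstant ν → ∃ n, ∀ x, ν x ≤ n

theorem Env.rev {R : X → X → Prop} (E : Env R) : Env (fun a b => R b a) where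
  ct := E.ct.rev
  cpt := E.cpt
  rect := by
    intro P Q hP hQ hPQ x hx y hy
    obtain ⟨W, V, h1, h2, h3, h4, h5, h6, h7, h8, h9⟩ := E.rect Q P hQ hP hPQ.symm y hy x hx
    exact ⟨V, W, h3, h4, h1, h2, h6, h5, h8, h7, fun a ha b hb => h9 b hb a ha⟩
  bdd := E.bdd

variable {R : X → X → Prop}

theorem Env.cluster (E : Env R) (W : ℕ → Set X) (hc : ∀ n, IsClopen (W n))
    (hd : ∀ n m, n < m → Disjoint (W n) (W m)) (hn : ∀ n, (W n).Nonempty) :
    ∃ y, ∀ O ∈ 𝓝 y, ∀ m, ∃ n, m ≤ n ∧ (O ∩ W n).Nonempty := by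
  classical
  by_contra hcon
  push Not at hcon
  have hd' : ∀ n m x, x ∈ W n → x ∈ W m → n = m := by
    intro n m x h1 h2
    rcases lt_trichotomy n m with h | h | h
    · exact absurd h2 (disjoint_left.1 (hd n m h) h1)
    · exact h
    · exact absurd h1 (disjoint_left.1 (hd m n h) h2)
  let ν : X → ℕ := fun x => if h : ∃ n, x ∈ W n then h.choose + 1 else 0
  have hν1 : ∀ n x, x ∈ W n → ν x = n + 1 := by
    intro n x hx
    have h : ∃ n, x ∈ W n := ⟨n, hx⟩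
    have h2 : ν x = h.choose + 1 := by simp only [ν]; rw [dif_pos h]
    rw [h2, hd' _ n x h.choose_spec hx]
  have hν0 : ∀ x, (∀ n, x ∉ W n) → ν x = 0 := by
    intro x hx
    have h : ¬ ∃ n, x ∈ W n := fun ⟨n, h⟩ => hx n h
    simp only [ν]; rw [dif_neg h]
  have hν : IsLocallyConstant ν := by
    rw [IsLocallyConstant.iff_eventually_eq]
    intro y
    by_cases h : ∃ n, y ∈ W n
    · obtain ⟨n, hn⟩ := h
      filter_upwards [(hc n).isOpen.mem_nhds hn] with x hx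
      rw [hν1 n x hx, hν1 n y hn]
    · have h' : ∀ n, y ∉ W n := fun n h1 => h ⟨n, h1⟩
      obtain ⟨O, hO, m, hm⟩ := hcon y
      have h1 : ∀ᶠ x in 𝓝 y, ∀ n < m, x ∉ W n := by
        have h2 : ∀ᶠ x in 𝓝 y, ∀ n ∈ {n | n < m}, x ∉ W n := by
          rw [Filter.eventually_all_finite (Set.finite_lt_nat m)]
          intro n _
          exact (hc n).compl.isOpen.mem_nhds (h' n)
        exact h2
      filter_upwards [hO, h1] with x hx hx'
      rw [hν0 y h', hν0 x]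
      intro n hxn
      by_cases hnm : n < m
      · exact hx' n hnm hxn
      · have h2 := hm n (not_lt.1 hnm)
        have h3 : x ∈ O ∩ W n := ⟨hx, hxn⟩
        rw [h2] at h3
        exact h3
  obtain ⟨k, hk⟩ := E.bdd ν hν
  obtain ⟨x, hx⟩ := hn k
  have := hk x
  rw [hν1 k x hx] at this
  omega

theorem Env.locA [T2Space X] (E : Env R) {P Q : Set X} (hP : IsClopen P) (hQ : IsClopen Q)
    (hPQ : Disjoint P Q) {x : X} (hx : x ∈ P) :
    ∃ V, IsClopen V ∧ x ∈ V ∧ V ⊆ P ∧ ∀ a ∈ V, ∀ y ∈ Q, (R a y ↔ R x y) := by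
  by_contra hcon
  push Not at hcon
  obtain ⟨K, hK, hKc, hxK⟩ := E.cpt x
  have step : ∀ V : {V : Set X // IsClopen V ∧ x ∈ V ∧ V ⊆ K ∩ P}, ∃ (a : X) (W : Set X)
      (V' : {V : Set X // IsClopen V ∧ x ∈ V ∧ V ⊆ K ∩ P}), a ∈ V.1 ∧ IsClopen W ∧ W.Nonempty ∧
      W ⊆ Q ∧ V'.1 ⊆ V.1 ∧ (∀ w ∈ W, ¬ (R a w ↔ R x w)) ∧ (∀ v ∈ V'.1, ∀ w ∈ W, (R v w ↔ R x w)) := by
    rintro ⟨V, hV, hxV, hVK⟩
    obtain ⟨a, ha, y, hy, hay⟩ := hcon V hV hxV (hVK.trans inter_subset_right)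
    have haP : a ∈ P := (hVK ha).2
    obtain ⟨V1, W1, h1, -, h2, -, h3, h4, -, h5, h6⟩ := E.rect P Q hP hQ hPQ x hx y hy
    obtain ⟨V2, W2, k1, -, k2, -, k3, k4, -, k5, k6⟩ := E.rect P Q hP hQ hPQ a haP y hy
    refine ⟨a, W1 ∩ W2, ⟨V ∩ V1, hV.inter h1, ⟨hxV, h3⟩, inter_subset_left.trans hVK⟩, ha,
      h2.inter k2, ⟨y, h4, k4⟩, inter_subset_left.trans h5, inter_subset_left, ?_, ?_⟩
    · rintro w ⟨hw1, hw2⟩
      rw [k6 a k3 w hw2, h6 x h3 w hw1]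
      intro hh
      rcases hay with ⟨h7, h8⟩ | ⟨h7, h8⟩
      · exact h8 (hh.1 h7)
      · exact h7 (hh.2 h8)
    · rintro v ⟨-, hv⟩ w ⟨hw1, -⟩
      rw [h6 v hv w hw1, h6 x h3 w hw1]
  choose fa fW fV g1 g2 g3 g4 g5 g6 g7 using step
  let V : ℕ → {V : Set X // IsClopen V ∧ x ∈ V ∧ V ⊆ K ∩ P} := fun n =>
    Nat.rec ⟨K ∩ P, hK.inter hP, ⟨hxK, hx⟩, Subset.rfl⟩ (fun _ V => fV V) n
  have hVs : ∀ n, V (n + 1) = fV (V n) := fun n => rfl
  have hVm : ∀ n m, n ≤ m → (V m).1 ⊆ (V n).1 := by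
    intro n m hnm
    induction m, hnm using Nat.le_induction with
    | base => exact Subset.rfl
    | succ m _ ih => rw [hVs]; exact (g5 _).trans ih
  let a : ℕ → X := fun n => fa (V n)
  let W : ℕ → Set X := fun n => fW (V n)
  have ha : ∀ n, a n ∈ (V n).1 := fun n => g1 _
  have hi : ∀ n, ∀ w ∈ W n, ¬ (R (a n) w ↔ R x w) := fun n => g6 _
  have hii : ∀ n m, n < m → ∀ w ∈ W n, (R (a m) w ↔ R x w) := by
    intro n m hnm w hw
    exact g7 (V n) (a m) (hVm (n + 1) m hnm (ha m)) w hw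
  obtain ⟨ys, hys⟩ := E.cluster W (fun n => g2 _) (by
    intro n m hnm
    rw [disjoint_left]
    intro w h1 h2
    exact hi m w h2 (hii n m hnm w h1)) (fun n => g3 _)
  have hysQ : ys ∈ Q := by
    by_contra h
    obtain ⟨n, -, w, hw1, hw2⟩ := hys _ (hQ.compl.isOpen.mem_nhds h) 0
    exact hw1 (g4 _ hw2)
  let F : Filter (ℕ × X) := (atTop ×ˢ 𝓝 ys) ⊓ 𝓟 {p | p.2 ∈ W p.1}
  have hF : F.NeBot := by
    rw [Filter.inf_principal_neBot_iff]
    intro s hs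
    rw [Filter.mem_prod_iff] at hs
    obtain ⟨t1, ht1, t2, ht2, hst⟩ := hs
    obtain ⟨m, hm⟩ := mem_atTop_sets.1 ht1
    obtain ⟨n, hn, w, hw1, hw2⟩ := hys t2 ht2 m
    exact ⟨(n, w), hst ⟨hm n hn, hw1⟩, hw2⟩
  let U := Ultrafilter.of F
  have hU : (U : Filter (ℕ × X)) ≤ F := Ultrafilter.of_le F
  have hfst : Tendsto (Prod.fst : ℕ × X → ℕ) U atTop :=
    (tendsto_fst (f := atTop) (g := 𝓝 ys)).mono_left (hU.trans inf_le_left)
  have hsnd : Tendsto (Prod.snd : ℕ × X → X) U (𝓝 ys) :=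
    (tendsto_snd (f := atTop) (g := 𝓝 ys)).mono_left (hU.trans inf_le_left)
  have hmem : ∀ᶠ p in (U : Filter (ℕ × X)), p.2 ∈ W p.1 := by
    have : {p : ℕ × X | p.2 ∈ W p.1} ∈ F := mem_inf_of_right (mem_principal_self _)
    exact hU this
  have hKP : IsCompact (K ∩ P) := hKc.inter_right hP.isClosed
  have h1 : ((U.map (fun p => a p.1) : Ultrafilter X) : Filter X) ≤ 𝓟 (K ∩ P) := by
    rw [le_principal_iff]
    show (fun p : ℕ × X => a p.1) ⁻¹' (K ∩ P) ∈ (U : Filter (ℕ × X))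
    have : (fun p : ℕ × X => a p.1) ⁻¹' (K ∩ P) = univ := by
      ext p
      simp only [mem_preimage, mem_univ, iff_true]
      exact (V p.1).2.2.2 (ha p.1)
    rw [this]; exact univ_mem
  obtain ⟨xs, hxs, hle⟩ := hKP.ultrafilter_le_nhds _ h1
  have hne : xs ≠ ys := by
    intro h
    rw [h] at hxs
    exact disjoint_left.1 hPQ hxs.2 hysQ
  have hev := E.ct.ev hne
  rw [nhds_prod_eq, Filter.eventually_prod_iff] at hev
  obtain ⟨pa, hpa, pb, hpb, hab⟩ := hev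
  have hpa' : ∀ᶠ p in (U : Filter (ℕ × X)), pa (a p.1) := by
    have : Tendsto (fun p : ℕ × X => a p.1) U (𝓝 xs) := hle
    exact this.eventually hpa
  have hA : ∀ᶠ p in (U : Filter (ℕ × X)), pa (a p.1) ∧ pb p.2 ∧ p.2 ∈ W p.1 := by
    filter_upwards [hpa', hsnd.eventually hpb, hmem] with p h1 h2 h3
    exact ⟨h1, h2, h3⟩
  obtain ⟨⟨n0, w0⟩, h01, h02, h03⟩ := hA.exists
  obtain ⟨⟨n1, w1⟩, ⟨h11, -, -⟩, h14⟩ :=
    (hA.and (hfst.eventually (eventually_gt_atTop n0))).exists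
  simp only at h01 h02 h03 h11 h14
  have e0 := hab h01 h02
  have e1 := hab h11 h02
  simp only at e0 e1
  have e2 := hii n0 n1 h14 w0 h03
  exact hi n0 w0 h03 (by rw [e0, ← e1, e2])

end Pool.Agent.Helper79K9.King
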