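import Pool.Agent.Helper79K9.King.Rows

/-!
One-ended clopen sets exist and carry kingless selections.
-/

set_option autoImplicit false

namespace Pool.Agent.Helper79K9.King

open Topology Set Filter

universe u

variable {X : Type u} [TopologicalSpace X] {R : X → X → Prop}

def OE (W : Set X) : Prop :=
  IsClopen W ∧ ¬ IsCompact W ∧ ∀ P, IsClopen P → P ⊆ W → IsCompact P ∨ IsCompact (W \ P)

theorem exists_free [T2Space X] {D : Set X} (hD : IsClosed D) (hnc : ¬ IsCompact D) :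
    ∃ e : Ultrafilter X, Free e ∧ D ∈ e := by
  have hne : (cocompact X ⊓ 𝓟 D).NeBot := by
    rw [Filter.inf_principal_neBot_iff]
    intro s hs
    rw [mem_cocompact] at hs
    obtain ⟨K, hK, hKs⟩ := hs
    by_contra h
    rw [not_nonempty_iff_eq_empty] at h
    apply hnc
    apply hK.of_isClosed_subset hD
    intro x hx
    by_contra hxK
    have : x ∈ s ∩ D := ⟨hKs hxK, hx⟩
    rw [h] at this
    exact this
  refine ⟨Ultrafilter.of (cocompact X ⊓ 𝓟 D), fun K hK => ?_, ?_⟩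
  · exact (Ultrafilter.of_le _) (mem_inf_of_left hK.compl_mem_cocompact)
  · exact (Ultrafilter.of_le _) (mem_inf_of_right (mem_principal_self D))

theorem Env.dich (E : Env R) (e : Ultrafilter X) (x : X) :
    (∀ᶠ y in (e : Filter X), R x y) ∨ (∀ᶠ y in (e : Filter X), R y x) := by
  have h : ∀ᶠ y in (e : Filter X), R x y ∨ R y x := Filter.Eventually.of_forall fun y => E.ct.or x y
  exact Ultrafilter.eventually_or.1 h

theorem Env.not_both (E : Env R) (e : Ultrafilter X) (he : Free e) (x : X)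
    (h1 : ∀ᶠ y in (e : Filter X), R x y) (h2 : ∀ᶠ y in (e : Filter X), R y x) : False := by
  have h3 : ∀ᶠ y in (e : Filter X), y ∈ ({x} : Set X)ᶜ := he {x} isCompact_singleton
  obtain ⟨y, ⟨h4, h5⟩, h6⟩ := ((h1.and h2).and h3).exists
  exact h6 (E.ct.asym h5 h4)

theorem Env.exists_OE [T2Space X] (E : Env R) (hX : ¬ IsCompact (univ : Set X)) :
    ∃ W : Set X, OE W := by
  by_contra hcon
  push Not at hcon
  have step : ∀ W : {W : Set X // IsClopen W ∧ ¬ IsCompact W}, ∃ (e : Ultrafilter X) (D : Set X)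
      (W' : {W : Set X // IsClopen W ∧ ¬ IsCompact W}), Free e ∧ IsClopen D ∧ D ∈ e ∧ D ⊆ W.1 ∧
      W'.1 ⊆ W.1 ∧ Disjoint D W'.1 ∧ (W'.1 ⊆ {x | ∀ᶠ y in (e : Filter X), R x y} ∨
        W'.1 ⊆ {x | ∀ᶠ y in (e : Filter X), R y x}) := by
    rintro ⟨W, hW, hWc⟩
    have h1 := hcon W
    unfold OE at h1
    push Not at h1
    obtain ⟨P, hP, hPW, hPc, hWP⟩ := h1 hW hWc
    obtain ⟨e, he, hPe⟩ := exists_free hP.isClosed hPc
    have hN1 := E.clopenN e he
    have hN2 : IsClopen {x | ∀ᶠ y in (e : Filter X), R y x} := E.rev.clopenN e he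
    have hcov : W \ P = ((W \ P) ∩ {x | ∀ᶠ y in (e : Filter X), R x y}) ∪
        ((W \ P) ∩ {x | ∀ᶠ y in (e : Filter X), R y x}) := by
      ext x
      constructor
      · intro hx
        rcases E.dich e x with h | h
        · exact Or.inl ⟨hx, h⟩
        · exact Or.inr ⟨hx, h⟩
      · rintro (hx | hx)
        · exact hx.1
        · exact hx.1
    by_cases h2 : IsCompact ((W \ P) ∩ {x | ∀ᶠ y in (e : Filter X), R x y})
    · have h3 : ¬ IsCompact ((W \ P) ∩ {x | ∀ᶠ y in (e : Filter X), R y x}) := by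
        intro h3
        apply hWP
        rw [hcov]
        exact h2.union h3
      exact ⟨e, P, ⟨_, (hW.diff hP).inter hN2, h3⟩, he, hP, hPe, hPW,
        inter_subset_left.trans sdiff_subset,
        disjoint_left.2 fun x hx hx' => hx'.1.2 hx, Or.inr inter_subset_right⟩
    · exact ⟨e, P, ⟨_, (hW.diff hP).inter hN1, h2⟩, he, hP, hPe, hPW,
        inter_subset_left.trans sdiff_subset,
        disjoint_left.2 fun x hx hx' => hx'.1.2 hx, Or.inl inter_subset_right⟩
  choose fe fD fW g1 g2 g3 g4 g5 g6 g7 using step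
  let W : ℕ → {W : Set X // IsClopen W ∧ ¬ IsCompact W} := fun n =>
    Nat.rec ⟨univ, isClopen_univ, hX⟩ (fun _ W => fW W) n
  have hWs : ∀ n, W (n + 1) = fW (W n) := fun n => rfl
  have hWm : ∀ n m, n ≤ m → (W m).1 ⊆ (W n).1 := by
    intro n m hnm
    induction m, hnm using Nat.le_induction with
    | base => exact Subset.rfl
    | succ m _ ih => rw [hWs]; exact (g5 _).trans ih
  have hDW : ∀ n m, n < m → fD (W m) ⊆ (W (n + 1)).1 := fun n m hnm =>
    (g4 (W m)).trans (hWm (n + 1) m hnm)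
  have hdis : ∀ n m, n < m → Disjoint (fD (W n)) (fD (W m)) := by
    intro n m hnm
    exact (g6 (W n)).mono_right (hDW n m hnm)
  by_cases hs : ∃ᶠ n in atTop, (W (n + 1)).1 ⊆ {x | ∀ᶠ y in (fe (W n) : Filter X), R x y}
  · obtain ⟨φ, hφ, hφs⟩ := extraction_of_frequently_atTop hs
    exact E.no_seq (fun n => fe (W (φ n))) (fun n => fD (W (φ n))) (fun n => g1 _) (fun n => g2 _)
      (fun n => g3 _) (fun n m hnm => hdis _ _ (hφ hnm))
      (fun j k hjk => (hDW _ _ (hφ hjk)).trans (hφs j))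
  · rw [not_frequently] at hs
    have hs' : ∃ᶠ n in atTop, (W (n + 1)).1 ⊆ {x | ∀ᶠ y in (fe (W n) : Filter X), R y x} := by
      apply Filter.Eventually.frequently
      filter_upwards [hs] with n hn
      rcases g7 (W n) with h | h
      · exact absurd h hn
      · exact h
    obtain ⟨φ, hφ, hφs⟩ := extraction_of_frequently_atTop hs'
    exact E.rev.no_seq (fun n => fe (W (φ n))) (fun n => fD (W (φ n))) (fun n => g1 _)
      (fun n => g2 _) (fun n => g3 _) (fun n m hnm => hdis _ _ (hφ hnm))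
      (fun j k hjk => (hDW _ _ (hφ hjk)).trans (hφs j))

theorem Env.clopen_row [T2Space X] (E : Env R) {Q : Set X} (hQ : IsClopen Q) {x : X}
    (hx : x ∉ Q) : IsClopen {y | y ∈ Q ∧ R x y} := by
  have h1 : {y | y ∈ Q ∧ R x y} = Q ∩ {y | y ≠ x ∧ R x y} := by
    ext y
    constructor
    · rintro ⟨h1, h2⟩
      exact ⟨h1, fun h => hx (h ▸ h1), h2⟩
    · rintro ⟨h1, -, h2⟩
      exact ⟨h1, h2⟩
  have h2 : {y | y ∈ Q ∧ R x y}ᶜ = Qᶜ ∪ (Q ∩ {y | y ≠ x ∧ R y x}) := by
    ext y
    constructor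
    · intro h
      by_cases hy : y ∈ Q
      · right
        have h3 : ¬ R x y := fun h3 => h ⟨hy, h3⟩
        have h4 : y ≠ x := fun h4 => hx (h4 ▸ hy)
        refine ⟨hy, h4, ?_⟩
        rcases E.ct.or x y with h5 | h5
        · exact absurd h5 h3
        · exact h5
      · exact Or.inl hy
    · rintro (h | ⟨h3, h4, h5⟩) ⟨h6, h7⟩
      · exact h h6
      · exact h4 (E.ct.asym h5 h7)
  constructor
  · rw [← isOpen_compl_iff, h2]
    exact hQ.compl.isOpen.union (hQ.isOpen.inter (E.ct.open_left x))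
  · rw [h1]
    exact hQ.isOpen.inter (E.ct.open_right x)

theorem Env.final_aux [T2Space X] (E : Env R) {W : Set X} (hW : OE W) (e : Ultrafilter X)
    (he : Free e) (hWe : W ∈ e)
    (h : ¬ IsCompact (W \ {x | ∀ᶠ y in (e : Filter X), R x y})) : KL X := by
  obtain ⟨hWc, hWn, hWo⟩ := hW
  have hN := E.clopenN e he
  set N := {x | ∀ᶠ y in (e : Filter X), R x y} with hNdef
  have hW' : IsClopen (W \ N) := hWc.diff hN
  have hWN : IsCompact (W ∩ N) := by
    rcases hWo (W ∩ N) (hWc.inter hN) inter_subset_left with h1 | h1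
    · exact h1
    · exfalso; apply h
      rwa [sdiff_self_inter] at h1
  have hoe : ∀ P, IsClopen P → P ⊆ W \ N → P ∉ e → IsCompact P := by
    intro P hP hPW hPe
    rcases hWo P hP (hPW.trans sdiff_subset) with h1 | h1
    · exact h1
    · exfalso; apply hPe
      have h2 : (W \ P)ᶜ ∈ e := he _ h1
      apply Filter.mem_of_superset (Filter.inter_mem hWe h2)
      rintro x ⟨h3, h4⟩
      by_contra h5
      exact h4 ⟨h3, h5⟩
  have hnot : ∀ x ∈ W \ N, ∀ᶠ y in (e : Filter X), ¬ R x y := by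
    intro x hx
    rw [Ultrafilter.eventually_not]
    exact hx.2
  have grow : ∀ K, IsClopen K → IsCompact K → K ⊆ W \ N → ∃ K', IsClopen K' ∧ IsCompact K' ∧
      K' ⊆ W \ N ∧ ∀ a ∈ K, ∀ y ∈ (W \ N) \ K', ¬ R a y := by
    intro K hK hKc hKW
    have hQ : IsClopen ((W \ N) \ K) := hW'.diff hK
    have hfin := E.rows hK hQ disjoint_sdiff_right
    have hrow : ∀ r ∈ ((fun x => {y | y ∈ (W \ N) \ K ∧ R x y}) '' K), IsClopen r ∧ IsCompact r ∧
        r ⊆ W \ N := by
      rintro r ⟨x, hx, rfl⟩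
      have hc : IsClopen {y | y ∈ (W \ N) \ K ∧ R x y} :=
        E.clopen_row hQ (fun h => h.2 hx)
      have hs : {y | y ∈ (W \ N) \ K ∧ R x y} ⊆ W \ N := fun y hy => hy.1.1
      refine ⟨hc, hoe _ hc hs ?_, hs⟩
      intro hmem
      have h1 : ∀ᶠ y in (e : Filter X), y ∈ {y | y ∈ (W \ N) \ K ∧ R x y} := hmem
      obtain ⟨y, hy1, hy2⟩ := (h1.and (hnot x (hKW hx))).exists
      exact hy2 hy1.2
    refine ⟨K ∪ ⋃ r ∈ ((fun x => {y | y ∈ (W \ N) \ K ∧ R x y}) '' K), r, ?_, ?_, ?_, ?_⟩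
    · exact hK.union (hfin.isClopen_biUnion fun r hr => (hrow r hr).1)
    · exact hKc.union (hfin.isCompact_biUnion fun r hr => (hrow r hr).2.1)
    · exact union_subset hKW (iUnion₂_subset fun r hr => (hrow r hr).2.2)
    · rintro a ha y ⟨hy1, hy2⟩ hR
      apply hy2
      by_cases hyK : y ∈ K
      · exact Or.inl hyK
      · right
        rw [mem_iUnion₂]
        exact ⟨_, ⟨a, ha, rfl⟩, ⟨hy1, hyK⟩, hR⟩
  have hne : (W \ N).Nonempty := by
    rw [nonempty_iff_ne_empty]
    intro h1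
    rw [h1] at h
    exact h isCompact_empty
  apply glue E.ct hW' hne
  intro z hz
  obtain ⟨V, hV, hVc, hzV⟩ := E.cpt z
  obtain ⟨K1, hK1, hK1c, hK1W, hK1r⟩ := grow (V ∩ (W \ N)) (hV.inter hW')
    (hVc.inter_right hW'.isClosed) inter_subset_right
  obtain ⟨K2, hK2, hK2c, hK2W, hK2r⟩ := grow K1 hK1 hK1c hK1W
  have hx : ∃ x ∈ W \ N, x ∉ K2 := by
    by_contra hcon
    push Not at hcon
    exact h (hK2c.of_isClosed_subset hW'.isClosed hcon)
  obtain ⟨x, hx1, hx2⟩ := hx
  refine ⟨x, hx1, fun y hy hzy => ?_⟩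
  have hyK : y ∈ K1 := by
    by_contra hyK
    exact hK1r z ⟨hzV, hz⟩ y ⟨hy, hyK⟩ hzy
  exact hK2r y hyK x ⟨hx1, hx2⟩

theorem Env.final [T2Space X] (E : Env R) (hX : ¬ IsCompact (univ : Set X)) : KL X := by
  obtain ⟨W, hW⟩ := E.exists_OE hX
  obtain ⟨e, he, hWe⟩ := exists_free hW.1.isClosed hW.2.1
  by_cases h : IsCompact (W \ {x | ∀ᶠ y in (e : Filter X), R x y})
  · have h2 : ¬ IsCompact (W \ {x | ∀ᶠ y in (e : Filter X), R y x}) := by
      intro h2
      apply hW.2.1
      have h3 : W = (W \ {x | ∀ᶠ y in (e : Filter X), R x y}) ∪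
          (W \ {x | ∀ᶠ y in (e : Filter X), R y x}) := by
        ext x
        constructor
        · intro hx
          by_cases h4 : ∀ᶠ y in (e : Filter X), R x y
          · exact Or.inr ⟨hx, fun h5 => E.not_both e he x h4 h5⟩
          · exact Or.inl ⟨hx, h4⟩
        · rintro (hx | hx)
          · exact hx.1
          · exact hx.1
      rw [h3]
      exact h.union h2
    exact E.rev.final_aux hW e he hWe h2
  · exact E.final_aux hW e he hWe h

end Pool.Agent.Helper79K9.King
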