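import Pool.Agent.Helper79K9.King.Defs

/-!
Two ways to change a continuous weak selection.
-/

set_option autoImplicit false

namespace Pool.Agent.Helper79K9.King

open Topology Set Filter

universe u

variable {X : Type u} [TopologicalSpace X]

/-- reversing all arrows between the points of different value of `ν` -/
theorem rank_CT {R : X → X → Prop} (h : CT R) (ν : X → ℕ) (hν : IsLocallyConstant ν) :
    CT (fun a b => ν b < ν a ∨ (ν a = ν b ∧ R a b)) where
  refl := fun a => Or.inr ⟨rfl, h.refl a⟩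
  tot := fun a b hab => by
    have := h.tot a b hab
    constructor
    · rintro (h1 | ⟨h1, h2⟩) (h3 | ⟨h3, h4⟩)
      · omega
      · omega
      · omega
      · exact this.1 h2 h4
    · intro h1
      by_cases h2 : ν b < ν a
      · exact Or.inl h2
      · right
        have h3 : ¬ ν a < ν b := fun h3 => h1 (Or.inl h3)
        have h4 : ν a = ν b := by omega
        exact ⟨h4, this.2 fun h5 => h1 (Or.inr ⟨h4.symm, h5⟩)⟩
  cont := fun a b hab hr => by
    have h1 : ∀ᶠ p : X × X in 𝓝 (a, b), ν p.1 = ν a := by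
      have := (continuous_fst (X := X) (Y := X)).tendsto (a, b)
      exact this.eventually (hν.eventually_eq a)
    have h2 : ∀ᶠ p : X × X in 𝓝 (a, b), ν p.2 = ν b := by
      have := (continuous_snd (X := X) (Y := X)).tendsto (a, b)
      exact this.eventually (hν.eventually_eq b)
    rcases hr with hr | ⟨hr, hr'⟩
    · filter_upwards [h1, h2] with p h3 h4
      left; rw [h3, h4]; exact hr
    · filter_upwards [h1, h2, h.cont a b hab hr'] with p h3 h4 h5
      right; exact ⟨by rw [h3, h4, hr], h5⟩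

theorem rank {R : X → X → Prop} (h : CT R) (ν : X → ℕ) (hν : IsLocallyConstant ν)
    (hb : ∀ n, ∃ x, n < ν x) : KL X := by
  refine ⟨_, rank_CT h ν hν, fun z => ?_⟩
  obtain ⟨x, hx⟩ := hb (ν z)
  refine ⟨x, fun y h1 h2 => ?_⟩
  have h3 : ν y ≤ ν z := by rcases h1 with h1 | ⟨h1, -⟩ <;> omega
  have h4 : ν x ≤ ν y := by rcases h2 with h2 | ⟨h2, -⟩ <;> omega
  omega

theorem glue {R : X → X → Prop} (h : CT R) {W : Set X} (hW : IsClopen W) (hne : W.Nonempty)
    (hk : ∀ z ∈ W, ∃ x ∈ W, ∀ y ∈ W, R z y → ¬ R y x) : KL X := by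
  classical
  have hν : IsLocallyConstant (fun x => if x ∈ W then 1 else 0 : X → ℕ) := by
    rw [IsLocallyConstant.iff_eventually_eq]
    intro x
    by_cases hx : x ∈ W
    · filter_upwards [hW.isOpen.mem_nhds hx] with y hy
      simp [hx, hy]
    · filter_upwards [hW.compl.isOpen.mem_nhds hx] with y hy
      have hy' : y ∉ W := hy
      simp [hx, hy']
  refine ⟨_, rank_CT h _ hν, fun z => ?_⟩
  by_cases hz : z ∈ W
  · obtain ⟨x, hx, hxy⟩ := hk z hz
    refine ⟨x, fun y h1 h2 => ?_⟩
    by_cases hy : y ∈ W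
    · simp only [hz, hx, hy, if_true, lt_irrefl, true_and, false_or] at h1 h2
      exact hxy y hy h1 h2
    · simp [hx, hy] at h2
  · obtain ⟨x, hx⟩ := hne
    refine ⟨x, fun y h1 h2 => ?_⟩
    by_cases hy : y ∈ W
    · simp [hz, hy] at h1
    · simp [hx, hy] at h2

end Pool.Agent.Helper79K9.King
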