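import Pool.Agent.Helper79K9.King.Defs

/-!
# [REC] Rectangles with clopen compact sides
-/

set_option autoImplicit false

namespace Pool.Agent.Helper79K9.King

open Topology Set Filter

universe u

/-- [REC] -/
theorem recl (clo : S_CLO.{u}) : S_REC.{u} := by
  classical
  intro X _ _ _ R hR hcomp P Q hP hQ hPQ x hx y hy
  have hne : ∀ a ∈ P, ∀ b ∈ Q, a ≠ b := fun a ha b hb hab =>
    disjoint_left.1 hPQ ha (hab ▸ hb)
  -- the two open sets
  have hO1 : IsOpen {p : X × X | p ∈ P ×ˢ Q ∧ R p.1 p.2} := by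
    rw [isOpen_iff_mem_nhds]
    rintro ⟨a, b⟩ ⟨⟨ha, hb⟩, hab⟩
    filter_upwards [hR.cont a b (hne a ha b hb) hab,
      (hP.isOpen.prod hQ.isOpen).mem_nhds (x := (a, b)) ⟨ha, hb⟩] with p h1 h2
    exact ⟨h2, h1⟩
  have hO2 : IsOpen {p : X × X | p ∈ P ×ˢ Q ∧ ¬ R p.1 p.2} := by
    rw [isOpen_iff_mem_nhds]
    rintro ⟨a, b⟩ ⟨⟨ha, hb⟩, hab⟩
    have hba : R b a := by
      by_contra h
      exact hab ((hR.tot a b (hne a ha b hb)).2 h)
    have h1 := hR.rev.cont a b (hne a ha b hb) hba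
    filter_upwards [h1, (hP.isOpen.prod hQ.isOpen).mem_nhds (x := (a, b)) ⟨ha, hb⟩] with p h1 h2
    exact ⟨h2, fun h3 => (hR.tot p.1 p.2 (hne _ h2.1 _ h2.2)).1 h3 h1⟩
  have hA : connectedComponent x ⊆ P := hP.connectedComponent_subset hx
  have hB : connectedComponent y ⊆ Q := hQ.connectedComponent_subset hy
  have hconn : IsPreconnected (connectedComponent x ×ˢ connectedComponent y) :=
    isPreconnected_connectedComponent.prod isPreconnected_connectedComponent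
  set T : Set (X × X) := {p | p ∈ P ×ˢ Q ∧ (R p.1 p.2 ↔ R x y)} with hT
  have hTo : IsOpen T := by
    by_cases hxy : R x y
    · have : T = {p : X × X | p ∈ P ×ˢ Q ∧ R p.1 p.2} := by
        ext p; simp [hT, hxy]
      rw [this]; exact hO1
    · have : T = {p : X × X | p ∈ P ×ˢ Q ∧ ¬ R p.1 p.2} := by
        ext p; simp [hT, hxy]
      rw [this]; exact hO2
  have hTs : connectedComponent x ×ˢ connectedComponent y ⊆ T := by
    rintro ⟨a, b⟩ ⟨ha, hb⟩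
    refine ⟨⟨hA ha, hB hb⟩, ?_⟩
    have hcov : connectedComponent x ×ˢ connectedComponent y ⊆
        {p : X × X | p ∈ P ×ˢ Q ∧ R p.1 p.2} ∪ {p : X × X | p ∈ P ×ˢ Q ∧ ¬ R p.1 p.2} := by
      rintro ⟨a', b'⟩ ⟨ha', hb'⟩
      by_cases h : R a' b'
      · exact Or.inl ⟨⟨hA ha', hB hb'⟩, h⟩
      · exact Or.inr ⟨⟨hA ha', hB hb'⟩, h⟩
    have hmem : (x, y) ∈ connectedComponent x ×ˢ connectedComponent y :=
      ⟨mem_connectedComponent, mem_connectedComponent⟩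
    by_contra hcon
    have h1 : (({p : X × X | p ∈ P ×ˢ Q ∧ R p.1 p.2}) ∩
        {p : X × X | p ∈ P ×ˢ Q ∧ ¬ R p.1 p.2}).Nonempty := by
      have h2 := hconn _ _ hO1 hO2 hcov
      by_cases hxy : R x y
      · have hab : ¬ R a b := fun h => hcon ⟨fun _ => hxy, fun _ => h⟩
        obtain ⟨p, _, hp⟩ := h2 ⟨(x, y), hmem, ⟨hx, hy⟩, hxy⟩
          ⟨(a, b), ⟨ha, hb⟩, ⟨hA ha, hB hb⟩, hab⟩
        exact ⟨p, hp⟩
      · have hab : R a b := by
          by_contra h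
          exact hcon ⟨fun h' => absurd h' h, fun h' => absurd h' hxy⟩
        obtain ⟨p, _, hp⟩ := h2 ⟨(a, b), ⟨ha, hb⟩, ⟨hA ha, hB hb⟩, hab⟩
          ⟨(x, y), hmem, ⟨hx, hy⟩, hxy⟩
        exact ⟨p, hp⟩
    obtain ⟨p, hp1, hp2⟩ := h1
    exact hp2.2 hp1.2
  obtain ⟨u, v, hu, hv, hAu, hBv, huv⟩ := generalized_tube_lemma (hcomp x) (hcomp y) hTo hTs
  obtain ⟨V, hV1, hV2, hV3, hV4⟩ := clo X x (u ∩ P) (hcomp x) (hu.inter hP.isOpen)
    (subset_inter hAu hA)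
  obtain ⟨W, hW1, hW2, hW3, hW4⟩ := clo X y (v ∩ Q) (hcomp y) (hv.inter hQ.isOpen)
    (subset_inter hBv hB)
  refine ⟨V, W, hV1, hV2, hW1, hW2, hV3 mem_connectedComponent, hW3 mem_connectedComponent,
    fun a ha => (hV4 ha).2, fun b hb => (hW4 hb).2, fun a ha b hb => ?_⟩
  exact (huv (mk_mem_prod (hV4 ha).1 (hW4 hb).1)).2

end Pool.Agent.Helper79K9.King
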