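import Pool.Agent.Helper79K9.King.Env

/-!
Finitely many rows, exchange of limits, free ultrafilters.
-/

set_option autoImplicit false

namespace Pool.Agent.Helper79K9.King

open Topology Set Filter

universe u

variable {X : Type u} [TopologicalSpace X] {R : X → X → Prop}

theorem Env.rows [T2Space X] (E : Env R) {P Q : Set X} (hP : IsClopen P) (hQ : IsClopen Q)
    (hPQ : Disjoint P Q) : ((fun x => {y | y ∈ Q ∧ R x y}) '' P).Finite := by
  by_contra hinf
  let row : X → Set X := fun x => {y | y ∈ Q ∧ R x y}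
  have step : ∀ S : {S : Set X // S ⊆ P ∧ (row '' S).Infinite}, ∃ (x y : X)
      (S' : {S : Set X // S ⊆ P ∧ (row '' S).Infinite}), x ∈ S.1 ∧ y ∈ Q ∧ S'.1 ⊆ S.1 ∧
      ∀ x' ∈ S'.1, ¬ (R x' y ↔ R x y) := by
    rintro ⟨S, hS, hSi⟩
    obtain ⟨r1, hr1, r2, hr2, hne⟩ := hSi.nontrivial
    obtain ⟨x1, hx1, rfl⟩ := hr1
    obtain ⟨x2, hx2, rfl⟩ := hr2
    have h1 : ∃ y ∈ Q, ¬ (R x1 y ↔ R x2 y) := by
      by_contra hcon
      push Not at hcon
      apply hne
      ext y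
      simp only [row, mem_ofPred_eq]
      constructor
      · rintro ⟨h3, h4⟩
        exact ⟨h3, (hcon y h3).1 h4⟩
      · rintro ⟨h3, h4⟩
        exact ⟨h3, (hcon y h3).2 h4⟩
    obtain ⟨y, hy, hxy⟩ := h1
    have h2 : row '' S ⊆ row '' {x ∈ S | R x y ↔ R x1 y} ∪ row '' {x ∈ S | ¬ (R x y ↔ R x1 y)} := by
      rintro r ⟨x, hx, rfl⟩
      by_cases h : R x y ↔ R x1 y
      · exact Or.inl ⟨x, ⟨hx, h⟩, rfl⟩
      · exact Or.inr ⟨x, ⟨hx, h⟩, rfl⟩
    by_cases h3 : (row '' {x ∈ S | R x y ↔ R x1 y}).Infinite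
    · refine ⟨x2, y, ⟨{x ∈ S | R x y ↔ R x1 y}, fun x hx => hS hx.1, h3⟩, hx2, hy,
        fun x hx => hx.1, ?_⟩
      rintro x' ⟨-, hx'⟩ h4
      exact hxy (hx'.symm.trans h4)
    · have h4 : (row '' {x ∈ S | ¬ (R x y ↔ R x1 y)}).Infinite := by
        intro h5
        exact hSi ((Set.Finite.union (not_infinite.1 h3) h5).subset h2)
      exact ⟨x1, y, ⟨{x ∈ S | ¬ (R x y ↔ R x1 y)}, fun x hx => hS hx.1, h4⟩, hx1, hy,
        fun x hx => hx.1, fun x' hx' => hx'.2⟩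
  choose fx fy fS g1 g2 g3 g4 using step
  let S : ℕ → {S : Set X // S ⊆ P ∧ (row '' S).Infinite} := fun n =>
    Nat.rec ⟨P, Subset.rfl, hinf⟩ (fun _ S => fS S) n
  have hSs : ∀ n, S (n + 1) = fS (S n) := fun n => rfl
  have hSm : ∀ n m, n ≤ m → (S m).1 ⊆ (S n).1 := by
    intro n m hnm
    induction m, hnm using Nat.le_induction with
    | base => exact Subset.rfl
    | succ m _ ih => rw [hSs]; exact (g3 _).trans ih
  let x : ℕ → X := fun n => fx (S n)
  let y : ℕ → X := fun n => fy (S n)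
  have hxP : ∀ n, x n ∈ P := fun n => (S n).2.1 (g1 _)
  have hyQ : ∀ n, y n ∈ Q := fun n => g2 _
  have hxy : ∀ n m, n < m → ¬ (R (x m) (y n) ↔ R (x n) (y n)) := by
    intro n m hnm
    exact g4 (S n) (x m) (hSm (n + 1) m hnm (g1 _))
  have hnb : ∀ n, ∀ N, ∃ V, IsClopen V ∧ x n ∈ V ∧ V ⊆ P ∧
      ∀ a ∈ V, ∀ k < N, (R a (y k) ↔ R (x n) (y k)) := by
    intro n N
    induction N with
    | zero => exact ⟨P, hP, hxP n, Subset.rfl, fun a _ k hk => absurd hk (Nat.not_lt_zero k)⟩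
    | succ N ih =>
      obtain ⟨V, h1, h2, h3, h4⟩ := ih
      obtain ⟨V', W', k1, -, -, -, k2, k3, -, -, k6⟩ := E.rect P Q hP hQ hPQ (x n) (hxP n)
        (y N) (hyQ N)
      refine ⟨V ∩ V', h1.inter k1, ⟨h2, k2⟩, inter_subset_left.trans h3, ?_⟩
      rintro a ⟨ha1, ha2⟩ k hk
      rcases Nat.lt_succ_iff_lt_or_eq.1 hk with hk | rfl
      · exact h4 a ha1 k hk
      · exact k6 a ha2 _ k3
  choose V v1 v2 v3 v4 using hnb
  obtain ⟨z, hz⟩ := E.cluster (fun n => V n (n + 1)) (fun n => v1 _ _) (by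
    intro n m hnm
    rw [disjoint_left]
    intro a ha hb
    have e1 := v4 n (n + 1) a ha n (Nat.lt_succ_self n)
    have e2 := v4 m (m + 1) a hb n (by omega)
    exact hxy n m hnm (e2.symm.trans e1)) (fun n => ⟨x n, v2 _ _⟩)
  have hzP : z ∈ P := by
    by_contra h
    obtain ⟨n, -, w, hw1, hw2⟩ := hz _ (hP.compl.isOpen.mem_nhds h) 0
    exact hw1 (v3 _ _ hw2)
  obtain ⟨O, hO, hzO, -, hOr⟩ := E.locA hP hQ hPQ hzP
  obtain ⟨n, -, a, ha1, ha2⟩ := hz O (hO.isOpen.mem_nhds hzO) 0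
  obtain ⟨m, hm, b, hb1, hb2⟩ := hz O (hO.isOpen.mem_nhds hzO) (n + 1)
  have e1 := v4 n (n + 1) a ha2 n (Nat.lt_succ_self n)
  have e2 := v4 m (m + 1) b hb2 n (by omega)
  have e3 := hOr a ha1 (y n) (hyQ n)
  have e4 := hOr b hb1 (y n) (hyQ n)
  exact hxy n m (by omega) (e2.symm.trans (e4.trans (e3.symm.trans e1)))

theorem Env.exch [T2Space X] (E : Env R) (e : Ultrafilter X) {P Q : Set X} (hP : IsClopen P)
    (hQ : IsClopen Q) (hPQ : Disjoint P Q) (he : P ∈ e) :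
    ∃ P' ∈ e, ∃ ρ : X → Prop, ∀ x ∈ P', ∀ y ∈ Q, (R x y ↔ ρ y) := by
  have hfin := E.rows hP hQ hPQ
  have h1 : P ⊆ ⋃ r ∈ ((fun x => {y | y ∈ Q ∧ R x y}) '' P), {x | {y | y ∈ Q ∧ R x y} = r} := by
    intro x hx
    rw [mem_iUnion₂]
    exact ⟨_, ⟨x, hx, rfl⟩, rfl⟩
  have h2 := Filter.mem_of_superset he h1
  rw [Ultrafilter.mem_coe, Ultrafilter.finite_biUnion_mem_iff hfin] at h2
  obtain ⟨r, -, hr⟩ := h2
  refine ⟨_, hr, fun y => y ∈ r, fun x hx y hy => ?_⟩
  rw [mem_ofPred_eq] at hx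
  rw [← hx]
  exact ⟨fun h => ⟨hy, h⟩, fun h => h.2⟩

/-- an ultrafilter without compact members -/
def Free (e : Ultrafilter X) : Prop := ∀ K : Set X, IsCompact K → Kᶜ ∈ e

theorem Env.clopenN [T2Space X] (E : Env R) (e : Ultrafilter X) (he : Free e) :
    IsClopen {x | ∀ᶠ y in (e : Filter X), R x y} := by
  have key : ∀ x, ∃ V, IsClopen V ∧ x ∈ V ∧ ∀ a ∈ V,
      ((∀ᶠ y in (e : Filter X), R a y) ↔ ∀ᶠ y in (e : Filter X), R x y) := by
    intro x
    obtain ⟨K, hK, hKc, hxK⟩ := E.cpt x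
    obtain ⟨V, hV, hxV, -, hVr⟩ := E.locA hK hK.compl disjoint_compl_right hxK
    refine ⟨V, hV, hxV, fun a ha => ?_⟩
    have h1 : ∀ᶠ y in (e : Filter X), y ∈ Kᶜ := he K hKc
    constructor
    · intro h
      filter_upwards [h, h1] with y h2 h3
      exact (hVr a ha y h3).1 h2
    · intro h
      filter_upwards [h, h1] with y h2 h3
      exact (hVr a ha y h3).2 h2
  constructor
  · rw [← isOpen_compl_iff, isOpen_iff_mem_nhds]
    intro x hx
    obtain ⟨V, hV, hxV, hVr⟩ := key x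
    filter_upwards [hV.isOpen.mem_nhds hxV] with a ha h
    exact hx ((hVr a ha).1 h)
  · rw [isOpen_iff_mem_nhds]
    intro x hx
    obtain ⟨V, hV, hxV, hVr⟩ := key x
    filter_upwards [hV.isOpen.mem_nhds hxV] with a ha
    exact (hVr a ha).2 hx

theorem Env.no_seq [T2Space X] (E : Env R) (e : ℕ → Ultrafilter X) (D : ℕ → Set X)
    (he : ∀ n, Free (e n)) (hD : ∀ n, IsClopen (D n)) (hDe : ∀ n, D n ∈ e n)
    (hd : ∀ n m, n < m → Disjoint (D n) (D m))
    (hN : ∀ j k, j < k → D k ⊆ {x | ∀ᶠ y in (e j : Filter X), R x y}) : False := by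
  let es : Ultrafilter X := Ultrafilter.bind (hyperfilter ℕ) e
  have hmem : ∀ s : Set X, s ∈ es ↔ {n | s ∈ e n} ∈ (hyperfilter ℕ : Ultrafilter ℕ) := by
    intro s
    rfl
  have hcof : ∀ s : Set ℕ, sᶜ.Finite → s ∈ (hyperfilter ℕ : Ultrafilter ℕ) := by
    intro s hs
    have := hs.compl_mem_hyperfilter
    rwa [compl_compl] at this
  have hes : Free es := by
    intro K hK
    rw [hmem]
    have : {n | Kᶜ ∈ e n} = univ := by
      ext n; simp only [mem_ofPred_eq, mem_univ, iff_true]; exact he n K hK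
    rw [this]; exact univ_mem
  have hd' : ∀ n m, n ≠ m → Disjoint (D n) (D m) := by
    intro n m hnm
    rcases lt_or_gt_of_ne hnm with h | h
    · exact hd n m h
    · exact (hd m n h).symm
  have hDc : ∀ k, (D k)ᶜ ∈ es := by
    intro k
    rw [hmem]
    apply hcof
    apply (Set.finite_singleton k).subset
    intro j hj
    rw [mem_singleton_iff]
    by_contra hjk
    apply hj
    exact Filter.mem_of_superset (hDe j) (fun x hx hx' => disjoint_left.1 (hd' j k hjk) hx hx')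
  have hNj : ∀ j, {x | ∀ᶠ y in (e j : Filter X), R x y} ∈ es := by
    intro j
    rw [hmem]
    apply hcof
    apply (Set.finite_le_nat j).subset
    intro k hk
    by_contra hjk
    apply hk
    exact Filter.mem_of_superset (hDe k) (hN j k (not_le.1 hjk))
  have hM : IsClopen {y | ∀ᶠ x in (es : Filter X), R x y} := E.rev.clopenN es hes
  have hMj : ∀ j, {y | ∀ᶠ x in (es : Filter X), R x y} ∈ e j := by
    intro j
    obtain ⟨P', hP', ρ, hρ⟩ := E.exch es (hD j).compl (hD j) disjoint_compl_left (hDc j)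
    obtain ⟨x, hx1, hx2⟩ := es.nonempty_of_mem (Filter.inter_mem hP' (hNj j))
    have h1 : ∀ᶠ y in (e j : Filter X), R x y := hx2
    have h2 : ∀ᶠ y in (e j : Filter X), y ∈ D j := hDe j
    have h3 : ∀ᶠ y in (e j : Filter X), y ∈ {y | ∀ᶠ x in (es : Filter X), R x y} := by
      filter_upwards [h1, h2] with y h4 h5
      have h6 : ρ y := (hρ x hx1 y h5).1 h4
      have h7 : ∀ᶠ x in (es : Filter X), x ∈ P' := hP'
      show ∀ᶠ x in (es : Filter X), R x y
      filter_upwards [h7] with a ha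
      exact (hρ a ha y h5).2 h6
    exact h3
  obtain ⟨z, hz⟩ := E.cluster (fun j => D j ∩ {y | ∀ᶠ x in (es : Filter X), R x y})
    (fun j => (hD j).inter hM) (fun n m hnm => (hd n m hnm).mono inter_subset_left inter_subset_left)
    (fun j => (e j).nonempty_of_mem (Filter.inter_mem (hDe j) (hMj j)))
  have hzM : z ∈ {y | ∀ᶠ x in (es : Filter X), R x y} := by
    by_contra h
    obtain ⟨n, -, w, hw1, hw2⟩ := hz _ (hM.compl.isOpen.mem_nhds h) 0
    exact hw1 hw2.2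
  have hzN : ∀ j, ∀ᶠ y in (e j : Filter X), R z y := by
    intro j
    by_contra h
    have hcl := E.clopenN (e j) (he j)
    obtain ⟨n, hn, w, hw1, hw2⟩ := hz _ (hcl.compl.isOpen.mem_nhds h) (j + 1)
    exact hw1 (hN j n (by omega) hw2.1)
  have h1 : ∀ᶠ y in (es : Filter X), R z y := by
    have : {y | R z y} ∈ es := by
      rw [hmem]
      have : {n | {y | R z y} ∈ e n} = univ := by
        ext n; simp only [mem_ofPred_eq, mem_univ, iff_true]; exact hzN n
      rw [this]; exact univ_mem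
    exact this
  have h2 : ∀ᶠ x in (es : Filter X), R x z := hzM
  have h3 : ∀ᶠ x in (es : Filter X), x ∈ ({z} : Set X)ᶜ := hes {z} isCompact_singleton
  obtain ⟨x, ⟨h4, h5⟩, h6⟩ := ((h1.and h2).and h3).exists
  exact h6 (E.ct.asym h5 h4)

end Pool.Agent.Helper79K9.King
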